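import Pool.Agent.W622.BK.Stm

/-!
Project BK (helper622), problem MP_7e1e73_al, part NKILL: forms in `D(H(X,u))` vanish at `u`.
-/

set_option autoImplicit false

namespace W885.BK

open Pool.Agent.W622.BK

universe u

theorem t_NKILL : Pool.Agent.W622.BK.S_NKILL.{u} := by
  intro hALT k _ E _ _ R X u n
  induction n with
  | zero =>
    intro η hR hη
    have h : one k E η ∈ Hh X u := hη
    have h2 : one k E η u = 0 := h.2
    apply (ev0 k E).injective
    rw [map_zero]
    exact h2
  | succ n ih =>
    intro η hR hη
    have hη' : (∀ e, cur k E η e ∈ D R (Hh X u) (n + 1)) ∧ InR R (cc k E η) := hη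
    apply (cur k E).injective
    rw [map_zero]
    apply LinearMap.ext
    intro e
    rw [(hALT k E R (Hh X u) n η hR hη).2 u e, ih (cur k E η e) hR (hη'.1 e), neg_zero,
      LinearMap.zero_apply]

end W885.BK
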